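import Mathlib

/-!
Rado's theorem for `q`-matroids: a family of subspaces has a `q`-transversal that is independent in
a `q`-matroid if and only if the bar nullity condition holds.
-/

set_option autoImplicit false

namespace Pool.Agent.Results.MP_ca0b96_co.QRado

open Module

/-- A `q`-matroid on the vector space `V`: a rank function on the subspaces. -/
structure QMatroid (K V : Type) [Field K] [AddCommGroup V] [Module K V] where
  r : Submodule K V → ℕ
  r_le_dim : ∀ A, r A ≤ finrank K A
  r_mono : ∀ A B, A ≤ B → r A ≤ r B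
  r_submod : ∀ A B, r (A ⊔ B) + r (A ⊓ B) ≤ r A + r B

section Defs

variable {K V : Type} [Field K] [AddCommGroup V] [Module K V]

/-- `A` is independent: `r(A) = dim A`. -/
def QMatroid.Indep (M : QMatroid K V) (A : Submodule K V) : Prop := M.r A = finrank K A

/-- `A` is a basis: a maximal independent subspace. -/
def QMatroid.IsBasis (M : QMatroid K V) (A : Submodule K V) : Prop := Maximal M.Indep A

/-- The bar nullity: the minimum of `dim (B ∩ X)` over the bases `B`. -/
noncomputable def QMatroid.barNullity (M : QMatroid K V) (X : Submodule K V) : ℕ :=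
  sInf {k | ∃ B, M.IsBasis B ∧ k = finrank K (B ⊓ X : Submodule K V)}

/-- `T` is a `q`-transversal of the family `X`: `dim T = n` and every vector basis of `T` can be
listed as `b_1, …, b_n` with `b_i ∉ X_i`. -/
def IsQTransversal {n : ℕ} (X : Fin n → Submodule K V) (T : Submodule K V) : Prop :=
  finrank K T = n ∧ ∀ b : Basis (Fin n) K T, ∃ σ : Equiv.Perm (Fin n), ∀ i, (b (σ i) : V) ∉ X i

end Defs

variable {K V : Type} [Field K] [AddCommGroup V] [Module K V]

lemma exists_notMem_two {P Q : Submodule K V} (hP : P ≠ ⊤) (hQ : Q ≠ ⊤) :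
    ∃ v : V, v ∉ P ∧ v ∉ Q := by
  obtain ⟨v, -, hv⟩ := SetLike.exists_of_lt (lt_top_iff_ne_top.2 hP)
  obtain ⟨w, -, hw⟩ := SetLike.exists_of_lt (lt_top_iff_ne_top.2 hQ)
  by_cases h1 : v ∈ Q
  · by_cases h2 : w ∈ P
    · refine ⟨v + w, ?_, ?_⟩
      · intro h
        exact hv ((Submodule.add_mem_iff_left P h2).1 h)
      · intro h
        exact hw ((Submodule.add_mem_iff_right Q h1).1 h)
    · exact ⟨w, h2, hw⟩
  · exact ⟨v, hv, h1⟩

section FD

variable [FiniteDimensional K V]

lemma finrank_sup_span_singleton {A : Submodule K V} {v : V} (hv : v ∉ A) :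
    finrank K (A ⊔ K ∙ v : Submodule K V) = finrank K A + 1 := by
  have hv0 : v ≠ 0 := by
    rintro rfl
    exact hv A.zero_mem
  have hdis : A ⊓ (K ∙ v) = ⊥ := by
    rw [eq_bot_iff]
    intro x hx
    obtain ⟨hx1, hx2⟩ := Submodule.mem_inf.1 hx
    obtain ⟨c, rfl⟩ := Submodule.mem_span_singleton.1 hx2
    by_cases hc : c = 0
    · rw [hc, zero_smul]
      exact Submodule.zero_mem _
    · exact absurd ((Submodule.smul_mem_iff A hc).1 hx1) hv
  have h := Submodule.finrank_sup_add_finrank_inf_eq A (K ∙ v)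
  rw [hdis, finrank_bot, finrank_span_singleton hv0] at h
  exact h

namespace QMatroid

variable (M : QMatroid K V)

/-- The closure of `A`. -/
def cl (A : Submodule K V) : Submodule K V where
  carrier := {v | M.r (A ⊔ K ∙ v) = M.r A}
  add_mem' := by
    intro u v hu hv
    have hu' : M.r (A ⊔ K ∙ u) = M.r A := hu
    have hv' : M.r (A ⊔ K ∙ v) = M.r A := hv
    apply le_antisymm _ (M.r_mono _ _ le_sup_left)
    have h1 := M.r_submod (A ⊔ K ∙ u) (A ⊔ K ∙ v)
    have h2 : M.r A ≤ M.r ((A ⊔ K ∙ u) ⊓ (A ⊔ K ∙ v)) :=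
      M.r_mono _ _ (le_inf le_sup_left le_sup_left)
    have h3 : M.r (A ⊔ K ∙ (u + v)) ≤ M.r ((A ⊔ K ∙ u) ⊔ (A ⊔ K ∙ v)) := by
      apply M.r_mono
      apply sup_le (le_sup_left.trans le_sup_left)
      rw [Submodule.span_singleton_le_iff_mem]
      apply Submodule.add_mem
      · exact (le_sup_left : A ⊔ K ∙ u ≤ _) ((le_sup_right : K ∙ u ≤ _)
          (Submodule.mem_span_singleton_self u))
      · exact (le_sup_right : A ⊔ K ∙ v ≤ _) ((le_sup_right : K ∙ v ≤ _)
          (Submodule.mem_span_singleton_self v))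
    omega
  zero_mem' := by
    change M.r (A ⊔ K ∙ (0 : V)) = M.r A
    rw [Submodule.span_zero_singleton, sup_bot_eq]
  smul_mem' := by
    intro c v hv
    have hv' : M.r (A ⊔ K ∙ v) = M.r A := hv
    apply le_antisymm _ (M.r_mono _ _ le_sup_left)
    rw [← hv']
    apply M.r_mono
    apply sup_le_sup_left
    rw [Submodule.span_singleton_le_iff_mem]
    exact Submodule.smul_mem _ _ (Submodule.mem_span_singleton_self v)

omit [FiniteDimensional K V] in
lemma mem_cl {A : Submodule K V} {v : V} : v ∈ M.cl A ↔ M.r (A ⊔ K ∙ v) = M.r A := Iff.rfl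

lemma r_sup_cl (A C : Submodule K V) (hC : C ≤ M.cl A) : M.r (A ⊔ C) = M.r A := by
  have hfg : C.FG := IsNoetherian.noetherian C
  revert hC
  refine Submodule.fg_induction (motive := fun C _ => C ≤ M.cl A → M.r (A ⊔ C) = M.r A) ?_ ?_ C hfg
  · intro v hv
    exact (M.mem_cl).1 (hv (Submodule.mem_span_singleton_self v))
  · intro C₁ C₂ _ _ h₁ h₂ hle
    have e₁ := h₁ (le_sup_left.trans hle)
    have e₂ := h₂ (le_sup_right.trans hle)
    apply le_antisymm _ (M.r_mono _ _ le_sup_left)
    have h1 := M.r_submod (A ⊔ C₁) (A ⊔ C₂)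
    have h2 : M.r A ≤ M.r ((A ⊔ C₁) ⊓ (A ⊔ C₂)) := M.r_mono _ _ (le_inf le_sup_left le_sup_left)
    have h3 : M.r (A ⊔ (C₁ ⊔ C₂)) ≤ M.r ((A ⊔ C₁) ⊔ (A ⊔ C₂)) := by
      apply M.r_mono
      exact sup_le (le_sup_left.trans le_sup_left)
        (sup_le (le_sup_right.trans le_sup_left) (le_sup_right.trans le_sup_right))
    omega

lemma cl_ne_top {A : Submodule K V} (h : M.r A < M.r ⊤) : M.cl A ≠ ⊤ := by
  intro hcl
  have := M.r_sup_cl A ⊤ hcl.ge
  rw [sup_top_eq] at this
  omega

lemma indep_sup {A : Submodule K V} (hA : M.Indep A) {v : V} (hv : v ∉ M.cl A) (hv' : v ∉ A) :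
    M.Indep (A ⊔ K ∙ v) := by
  have h1 := M.r_le_dim (A ⊔ K ∙ v)
  have h2 := M.r_mono A (A ⊔ K ∙ v) le_sup_left
  rw [mem_cl] at hv
  rw [finrank_sup_span_singleton hv'] at h1
  unfold Indep at hA ⊢
  rw [finrank_sup_span_singleton hv']
  omega

omit [FiniteDimensional K V] in
lemma subset_cl (A : Submodule K V) : A ≤ M.cl A := by
  intro v hv
  rw [mem_cl, sup_eq_left.2]
  rwa [Submodule.span_singleton_le_iff_mem]

/-- Greedy construction of an independent subspace disjoint from `W`. -/
lemma exists_indep_disjoint (W : Submodule K V) (n : ℕ) (hn : n ≤ M.r ⊤)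
    (hW : finrank K W + n ≤ finrank K V) :
    ∃ T, M.Indep T ∧ finrank K T = n ∧ T ⊓ W = ⊥ := by
  induction n with
  | zero =>
    refine ⟨⊥, ?_, finrank_bot K V, bot_inf_eq W⟩
    have := M.r_le_dim ⊥
    rw [finrank_bot] at this
    unfold Indep
    rw [finrank_bot]
    omega
  | succ n ih =>
    obtain ⟨T, hT, hTn, hTW⟩ := ih (by omega) (by omega)
    have h1 : M.cl T ≠ ⊤ := M.cl_ne_top (by
      have : M.r T = finrank K T := hT
      omega)
    have h2 : T ⊔ W ≠ ⊤ := by
      intro h
      have h3 := Submodule.finrank_sup_add_finrank_inf_eq T W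
      rw [h, hTW, finrank_bot, finrank_top] at h3
      omega
    obtain ⟨v, hv1, hv2⟩ := exists_notMem_two h1 h2
    have hvT : v ∉ T := fun h => hv1 (M.subset_cl T h)
    refine ⟨T ⊔ K ∙ v, M.indep_sup hT hv1 hvT, ?_, ?_⟩
    · rw [finrank_sup_span_singleton hvT, hTn]
    · rw [eq_bot_iff]
      intro x hx
      obtain ⟨hx1, hx2⟩ := Submodule.mem_inf.1 hx
      obtain ⟨t, ht, y, hy, rfl⟩ := Submodule.mem_sup.1 hx1
      obtain ⟨c, rfl⟩ := Submodule.mem_span_singleton.1 hy
      by_cases hc : c = 0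
      · rw [hc, zero_smul, add_zero] at hx2 ⊢
        have : t ∈ T ⊓ W := Submodule.mem_inf.2 ⟨ht, hx2⟩
        rw [hTW] at this
        exact this
      · exfalso
        apply hv2
        have h3 : c • v ∈ T ⊔ W := by
          have : c • v = -t + (t + c • v) := by abel
          rw [this]
          exact Submodule.add_mem _ ((le_sup_left : T ≤ T ⊔ W) (T.neg_mem ht))
            ((le_sup_right : W ≤ T ⊔ W) hx2)
        exact (Submodule.smul_mem_iff _ hc).1 h3

lemma finrank_isBasis {B : Submodule K V} (hB : M.IsBasis B) : finrank K B = M.r ⊤ := by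
  have h1 : M.r B = finrank K B := hB.1
  have h2 := M.r_mono B ⊤ le_top
  by_contra hne
  have h3 : M.cl B ≠ ⊤ := M.cl_ne_top (by omega)
  obtain ⟨v, hv, -⟩ := exists_notMem_two h3 h3
  have hvB : v ∉ B := fun h => hv (M.subset_cl B h)
  have h4 := hB.2 (M.indep_sup hB.1 hv hvB) le_sup_left
  exact hvB (h4 ((le_sup_right : K ∙ v ≤ _) (Submodule.mem_span_singleton_self v)))

lemma exists_isBasis_ge {A : Submodule K V} (hA : M.Indep A) : ∃ B, A ≤ B ∧ M.IsBasis B := by
  obtain ⟨k, hk⟩ : ∃ k, finrank K V - finrank K A = k := ⟨_, rfl⟩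
  induction k using Nat.strong_induction_on generalizing A with
  | _ k ih =>
    by_cases h : M.IsBasis A
    · exact ⟨A, le_rfl, h⟩
    · unfold IsBasis Maximal at h
      push Not at h
      obtain ⟨B, hB, hAB, hBA⟩ := h hA
      have hlt : A < B := lt_of_le_not_ge hAB hBA
      have h1 := Submodule.finrank_lt_finrank_of_lt hlt
      have h2 := Submodule.finrank_le B
      obtain ⟨C, hBC, hC⟩ := ih _ (by omega) hB rfl
      exact ⟨C, hAB.trans hBC, hC⟩

lemma barNullity_spec (X : Submodule K V) :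
    ∃ B, M.IsBasis B ∧ M.barNullity X = finrank K (B ⊓ X : Submodule K V) := by
  have h0 : M.Indep ⊥ := by
    have := M.r_le_dim ⊥
    rw [finrank_bot] at this
    unfold Indep
    rw [finrank_bot]
    omega
  obtain ⟨B, -, hB⟩ := M.exists_isBasis_ge h0
  have hne : {k | ∃ B, M.IsBasis B ∧ k = finrank K (B ⊓ X : Submodule K V)}.Nonempty :=
    ⟨_, B, hB, rfl⟩
  exact Nat.sInf_mem hne

omit [FiniteDimensional K V] in
lemma barNullity_le {B : Submodule K V} (hB : M.IsBasis B) (X : Submodule K V) :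
    M.barNullity X ≤ finrank K (B ⊓ X : Submodule K V) :=
  Nat.sInf_le ⟨B, hB, rfl⟩

lemma barNullity_top : M.barNullity ⊤ = M.r ⊤ := by
  obtain ⟨B, hB, h⟩ := M.barNullity_spec ⊤
  rw [h, inf_top_eq, M.finrank_isBasis hB]

end QMatroid

/-- The condition of the transversal theorem. -/
def Cond {n : ℕ} (X : Fin n → Submodule K V) : Prop :=
  ∀ J : Finset (Fin n), finrank K (⨅ j ∈ J, X j : Submodule K V) + J.card ≤ finrank K V

omit [FiniteDimensional K V] in
lemma inf_insert' {n : ℕ} (X : Fin n → Submodule K V) (P : Submodule K V) (i : Fin n)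
    (J : Finset (Fin n)) (hi : i ∉ J) :
    (⨅ j ∈ insert i J, Function.update X i P j) = P ⊓ ⨅ j ∈ J, X j := by
  rw [Finset.iInf_insert, Function.update_self]
  congr 1
  apply iInf_congr
  intro j
  apply iInf_congr
  intro hj
  rw [Function.update_of_ne]
  rintro rfl
  exact hi hj

lemma cond_fail {n : ℕ} {X : Fin n → Submodule K V} (hX : Cond X) {P : Submodule K V} {i : Fin n}
    (h : ¬ Cond (Function.update X i P)) :
    ∃ J : Finset (Fin n), i ∉ J ∧
      finrank K V < finrank K (P ⊓ ⨅ j ∈ J, X j : Submodule K V) + J.card + 1 := by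
  classical
  unfold Cond at h
  push Not at h
  obtain ⟨J, hJ⟩ := h
  by_cases hi : i ∈ J
  · refine ⟨J.erase i, Finset.notMem_erase i J, ?_⟩
    rw [← inf_insert' X P i (J.erase i) (Finset.notMem_erase i J), Finset.insert_erase hi]
    have := Finset.card_erase_add_one hi
    omega
  · exfalso
    have h1 : (⨅ j ∈ J, Function.update X i P j) = ⨅ j ∈ J, X j := by
      apply iInf_congr
      intro j
      apply iInf_congr
      intro hj
      rw [Function.update_of_ne]
      rintro rfl
      exact hi hj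
    rw [h1] at hJ
    have := hX J
    omega

/-- Enlarge one of the subspaces by one dimension keeping the condition. -/
lemma enlarge {n : ℕ} {X : Fin n → Submodule K V} (hX : Cond X) (i : Fin n)
    (hi : finrank K (X i) + 2 ≤ finrank K V) :
    ∃ P : Submodule K V, X i ≤ P ∧ finrank K P = finrank K (X i) + 1 ∧
      Cond (Function.update X i P) := by
  classical
  have h1 : X i ≠ ⊤ := by
    intro h
    rw [h, finrank_top] at hi
    omega
  obtain ⟨u, -, hu⟩ := SetLike.exists_of_lt (lt_top_iff_ne_top.2 h1)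
  have hP := finrank_sup_span_singleton hu
  have h2 : X i ⊔ K ∙ u ≠ ⊤ := by
    intro h
    rw [h, finrank_top] at hP
    omega
  obtain ⟨v, -, hv⟩ := SetLike.exists_of_lt (lt_top_iff_ne_top.2 h2)
  have hv' : v ∉ X i := fun h => hv ((le_sup_left : X i ≤ X i ⊔ K ∙ u) h)
  have hQ := finrank_sup_span_singleton hv'
  set P := X i ⊔ K ∙ u with hPdef
  set Q := X i ⊔ K ∙ v with hQdef
  by_cases hcP : Cond (Function.update X i P)
  · exact ⟨P, le_sup_left, hP, hcP⟩
  by_cases hcQ : Cond (Function.update X i Q)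
  · exact ⟨Q, le_sup_left, hQ, hcQ⟩
  exfalso
  obtain ⟨J, hJ, hJ'⟩ := cond_fail hX hcP
  obtain ⟨L, hL, hL'⟩ := cond_fail hX hcQ
  have hPQ : P ⊓ Q = X i := by
    apply le_antisymm _ (le_inf le_sup_left le_sup_left)
    intro x hx
    obtain ⟨hx1, hx2⟩ := Submodule.mem_inf.1 hx
    obtain ⟨y, hy, z, hz, rfl⟩ := Submodule.mem_sup.1 hx2
    obtain ⟨c, rfl⟩ := Submodule.mem_span_singleton.1 hz
    by_cases hc : c = 0
    · rw [hc, zero_smul, add_zero]
      exact hy
    · exfalso
      apply hv
      have h3 : c • v ∈ P := by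
        have : c • v = (y + c • v) + -y := by abel
        rw [this]
        exact Submodule.add_mem _ hx1 ((le_sup_left : X i ≤ P) ((X i).neg_mem hy))
      exact (Submodule.smul_mem_iff _ hc).1 h3
  have hsum := Submodule.finrank_sup_add_finrank_inf_eq (P ⊓ ⨅ j ∈ J, X j) (Q ⊓ ⨅ j ∈ L, X j)
  have hinf : (P ⊓ ⨅ j ∈ J, X j) ⊓ (Q ⊓ ⨅ j ∈ L, X j) = ⨅ j ∈ insert i (J ∪ L), X j := by
    rw [Finset.iInf_insert, Finset.iInf_union, inf_inf_inf_comm, hPQ]
  have hsup : (P ⊓ ⨅ j ∈ J, X j) ⊔ (Q ⊓ ⨅ j ∈ L, X j) ≤ ⨅ j ∈ J ∩ L, X j := by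
    apply sup_le
    · refine inf_le_right.trans ?_
      exact iInf_mono fun j => iInf_mono' fun hj => ⟨(Finset.mem_inter.1 hj).1, le_rfl⟩
    · refine inf_le_right.trans ?_
      exact iInf_mono fun j => iInf_mono' fun hj => ⟨(Finset.mem_inter.1 hj).2, le_rfl⟩
  have h3 := hX (insert i (J ∪ L))
  have h4 := hX (J ∩ L)
  have h5 := Submodule.finrank_mono hsup
  have h6 := Finset.card_union_add_card_inter J L
  have h7 : i ∉ J ∪ L := by
    rw [Finset.mem_union]
    tauto
  rw [Finset.card_insert_of_notMem h7] at h3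
  rw [hinf] at hsum
  omega

/-- Rado's theorem: enlarge all subspaces to hyperplanes. -/
lemma exists_hyperplanes {n : ℕ} {X : Fin n → Submodule K V} (hX : Cond X) :
    ∃ H : Fin n → Submodule K V, (∀ i, X i ≤ H i) ∧ (∀ i, finrank K (H i) + 1 = finrank K V) ∧
      Cond H := by
  obtain ⟨k, hk⟩ : ∃ k, ∑ i, (finrank K V - finrank K (X i)) = k := ⟨_, rfl⟩
  induction k using Nat.strong_induction_on generalizing X with
  | _ k ih =>
    have hle : ∀ i, finrank K (X i) + 1 ≤ finrank K V := by
      intro i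
      have := hX {i}
      rwa [Finset.card_singleton, Finset.iInf_singleton] at this
    by_cases h : ∀ i, finrank K (X i) + 1 = finrank K V
    · exact ⟨X, fun i => le_rfl, h, hX⟩
    · push Not at h
      obtain ⟨i, hi⟩ := h
      have := hle i
      obtain ⟨P, hXP, hP, hcP⟩ := enlarge hX i (by omega)
      have hlt : ∑ j, (finrank K V - finrank K (Function.update X i P j)) < k := by
        rw [← hk]
        apply Finset.sum_lt_sum
        · intro j _
          by_cases hj : j = i
          · subst hj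
            rw [Function.update_self, hP]
            omega
          · rw [Function.update_of_ne hj]
        · refine ⟨i, Finset.mem_univ i, ?_⟩
          rw [Function.update_self, hP]
          omega
      obtain ⟨H, hH, hH1, hH2⟩ := ih _ hlt hcP rfl
      refine ⟨H, ?_, hH1, hH2⟩
      intro j
      by_cases hj : j = i
      · subst hj
        have := hH j
        rw [Function.update_self] at this
        exact hXP.trans this
      · have := hH j
        rwa [Function.update_of_ne hj] at this

lemma exists_functional {H : Submodule K V} (hH : finrank K H + 1 = finrank K V) :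
    ∃ f : V →ₗ[K] K, LinearMap.ker f = H := by
  have h1 : H < ⊤ := by
    rw [lt_top_iff_ne_top]
    intro h
    rw [h, finrank_top] at hH
    omega
  obtain ⟨f, hf, hle⟩ := Submodule.exists_le_ker_of_lt_top H h1
  refine ⟨f, ?_⟩
  symm
  apply Submodule.eq_of_le_of_finrank_le hle
  have h2 : LinearMap.ker f ≠ ⊤ := by
    intro h
    exact hf (LinearMap.ker_eq_top.1 h)
  have h3 := Submodule.finrank_lt h2
  omega

/-- A subspace of dimension `n` disjoint from the intersection of `n` hyperplanes is a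
`q`-transversal of them. -/
lemma isQTransversal_of_disjoint {n : ℕ} {X : Fin n → Submodule K V}
    (f : Fin n → (V →ₗ[K] K)) (hf : ∀ i, X i ≤ LinearMap.ker (f i)) {T : Submodule K V}
    (hT : finrank K T = n) (hdis : T ⊓ ⨅ i, LinearMap.ker (f i) = ⊥) : IsQTransversal X T := by
  refine ⟨hT, ?_⟩
  intro b
  let A : Matrix (Fin n) (Fin n) K := Matrix.of fun i j => f i (b j)
  have hdet : A.det ≠ 0 := by
    intro h0
    obtain ⟨c, hc0, hc⟩ := Matrix.exists_mulVec_eq_zero_iff.2 h0
    apply hc0
    have h1 : (∑ j, c j • b j : T) = 0 := by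
      have h2 : ((∑ j, c j • b j : T) : V) ∈ T ⊓ ⨅ i, LinearMap.ker (f i) := by
        refine Submodule.mem_inf.2 ⟨(∑ j, c j • b j : T).2, ?_⟩
        rw [Submodule.mem_iInf]
        intro i
        rw [LinearMap.mem_ker]
        have h3 := congrFun hc i
        rw [Matrix.mulVec, dotProduct] at h3
        rw [Submodule.coe_sum, map_sum]
        rw [Pi.zero_apply] at h3
        rw [← h3]
        apply Finset.sum_congr rfl
        intro j _
        rw [Submodule.coe_smul, map_smul, smul_eq_mul, mul_comm]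
        rfl
      rw [hdis, Submodule.mem_bot] at h2
      exact Subtype.ext h2
    have h4 := Fintype.linearIndependent_iff.1 b.linearIndependent c h1
    exact funext h4
  rw [Matrix.det_apply] at hdet
  obtain ⟨σ, -, hσ⟩ := Finset.exists_ne_zero_of_sum_ne_zero hdet
  have hprod : ∏ i, A (σ i) i ≠ 0 := by
    intro h
    apply hσ
    rw [h, smul_zero]
  rw [Finset.prod_ne_zero_iff] at hprod
  refine ⟨σ⁻¹, fun i hi => ?_⟩
  have h5 := hprod (σ⁻¹ i) (Finset.mem_univ _)
  apply h5
  have h6 : σ (σ⁻¹ i) = i := Equiv.apply_symm_apply σ i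
  rw [h6]
  exact LinearMap.mem_ker.1 (hf i hi)

/-- A `q`-transversal meets the intersections `X(J)` in small dimension. -/
lemma finrank_inf_le {n : ℕ} {X : Fin n → Submodule K V} {T : Submodule K V}
    (hT : IsQTransversal X T) (J : Finset (Fin n)) :
    finrank K (T ⊓ ⨅ j ∈ J, X j : Submodule K V) + J.card ≤ n := by
  classical
  set Y : Submodule K V := ⨅ j ∈ J, X j with hY
  let S : Submodule K T := Y.comap T.subtype
  have hS : finrank K S = finrank K (T ⊓ Y : Submodule K V) := by
    have h1 : (S.map T.subtype) = T ⊓ Y := by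
      rw [Submodule.map_comap_subtype]
    rw [← h1]
    exact (Submodule.finrank_map_subtype_eq T S).symm
  obtain ⟨S', hS'⟩ := Submodule.exists_isCompl S
  let e := Submodule.prodEquivOfIsCompl S S' hS'
  have hdim : finrank K S + finrank K S' = n := by
    rw [Submodule.finrank_add_eq_of_isCompl hS', hT.1]
  let b₀ : Basis (Fin (finrank K S) ⊕ Fin (finrank K S')) K T :=
    ((finBasis K S).prod (finBasis K S')).map e
  let b : Basis (Fin n) K T := b₀.reindex (finSumFinEquiv.trans (finCongr hdim))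
  obtain ⟨σ, hσ⟩ := hT.2 b
  -- the indices of `J` are sent to the second part
  have hlt : ∀ j ∈ J, finrank K S ≤ (σ j : ℕ) := by
    intro j hj
    by_contra hcon
    push Not at hcon
    apply hσ j
    have h1 : b (σ j) = b₀ (Sum.inl ⟨σ j, hcon⟩) := by
      rw [Basis.reindex_apply]
      congr 1
      rw [Equiv.symm_apply_eq]
      apply Fin.ext
      simp
    have h2 : b₀ (Sum.inl ⟨σ j, hcon⟩) ∈ S := by
      rw [Basis.map_apply]
      have h3 : ((finBasis K S).prod (finBasis K S')) (Sum.inl ⟨σ j, hcon⟩) =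
          (finBasis K S ⟨σ j, hcon⟩, 0) :=
        Prod.ext (Basis.prod_apply_inl_fst _ _ _) (Basis.prod_apply_inl_snd _ _ _)
      rw [h3]
      change e (_, 0) ∈ S
      rw [Submodule.coe_prodEquivOfIsCompl']
      simp
    rw [h1]
    have h3 : (b₀ (Sum.inl ⟨σ j, hcon⟩) : V) ∈ Y := h2
    rw [hY, Submodule.mem_iInf] at h3
    have h4 := h3 j
    rw [Submodule.mem_iInf] at h4
    exact h4 hj
  have hcard : J.card ≤ finrank K S' := by
    have h1 : (J.image (fun j => (σ j : ℕ))).card = J.card := by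
      apply Finset.card_image_of_injective
      intro a c hac
      exact σ.injective (Fin.ext hac)
    rw [← h1]
    have h2 : J.image (fun j => (σ j : ℕ)) ⊆ Finset.Ico (finrank K S) n := by
      intro x hx
      obtain ⟨j, hj, rfl⟩ := Finset.mem_image.1 hx
      exact Finset.mem_Ico.2 ⟨hlt j hj, (σ j).2⟩
    have h3 := Finset.card_le_card h2
    rw [Nat.card_Ico] at h3
    omega
  omega

/-- Rado's theorem for `q`-matroids. -/
theorem result (K V : Type) [Field K] [AddCommGroup V] [Module K V] [FiniteDimensional K V]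
    (M : QMatroid K V) (n : ℕ) (X : Fin n → Submodule K V) :
    (∃ T, IsQTransversal X T ∧ M.Indep T) ↔
      ∀ J : Finset (Fin n), M.barNullity (⨅ j ∈ J, X j) + J.card ≤ M.barNullity ⊤ := by
  rw [M.barNullity_top]
  constructor
  · rintro ⟨T, hT, hTi⟩ J
    obtain ⟨B, hTB, hB⟩ := M.exists_isBasis_ge hTi
    have h1 := M.barNullity_le hB (⨅ j ∈ J, X j)
    have h2 := finrank_inf_le hT J
    have h3 := M.finrank_isBasis hB
    have h4 := Submodule.finrank_sup_add_finrank_inf_eq (B ⊓ ⨅ j ∈ J, X j) T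
    have h5 : (B ⊓ ⨅ j ∈ J, X j) ⊓ T = T ⊓ ⨅ j ∈ J, X j := by
      apply le_antisymm
      · exact le_inf inf_le_right (inf_le_left.trans inf_le_right)
      · exact le_inf (le_inf (inf_le_left.trans hTB) inf_le_right) inf_le_left
    have h6 : finrank K ((B ⊓ ⨅ j ∈ J, X j) ⊔ T : Submodule K V) ≤ finrank K B :=
      Submodule.finrank_mono (sup_le inf_le_left hTB)
    have h7 := hT.1
    rw [h5] at h4
    omega
  · intro h
    have hn : n ≤ M.r ⊤ := by
      have := h Finset.univ
      rw [Finset.card_univ, Fintype.card_fin] at this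
      omega
    have hcond : Cond X := by
      intro J
      obtain ⟨B, hB, hB'⟩ := M.barNullity_spec (⨅ j ∈ J, X j)
      have h1 := h J
      have h2 := M.finrank_isBasis hB
      have h3 := Submodule.finrank_sup_add_finrank_inf_eq B (⨅ j ∈ J, X j)
      have h4 := Submodule.finrank_le (B ⊔ ⨅ j ∈ J, X j)
      omega
    obtain ⟨H, hXH, hH1, hH2⟩ := exists_hyperplanes hcond
    choose f hf using fun i => exists_functional (hH1 i)
    have hW : finrank K (⨅ i, LinearMap.ker (f i) : Submodule K V) + n ≤ finrank K V := by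
      have h1 := hH2 Finset.univ
      rw [Finset.card_univ, Fintype.card_fin] at h1
      have h2 : (⨅ j ∈ (Finset.univ : Finset (Fin n)), H j) = ⨅ i, LinearMap.ker (f i) := by
        simp only [Finset.mem_univ, iInf_pos, hf]
      rwa [h2] at h1
    obtain ⟨T, hT, hTn, hTW⟩ := M.exists_indep_disjoint _ n hn hW
    refine ⟨T, isQTransversal_of_disjoint f (fun i => ?_) hTn hTW, hT⟩
    rw [hf]
    exact hXH i

end FD

end Pool.Agent.Results.MP_ca0b96_co.QRado
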